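import Mathlib

set_option autoImplicit false

/-!
Generic facts for counting the positive and negative eigenvalues of a real diagonal matrix, and
for turning real normal matrices into complex ones.
-/

open Matrix Polynomial

namespace Pool.Agent.X297.ND

theorem eig_multiset {m : ℕ} (M : Matrix (Fin m) (Fin m) ℂ) (hM : M.IsHermitian)
    (d : Fin m → ℝ) (h : M = Matrix.diagonal fun i => (d i : ℂ)) :
    Multiset.map hM.eigenvalues Finset.univ.val = Multiset.map d Finset.univ.val := by
  have h1 := hM.roots_charpoly_eq_eigenvalues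
  have h2 : M.charpoly.roots
      = Multiset.map (fun i => (d i : ℂ)) Finset.univ.val := by
    rw [h, Matrix.charpoly_diagonal]
    rw [Finset.prod_eq_multiset_prod]
    have e : Multiset.map (fun i => (X - C (d i : ℂ) : ℂ[X])) Finset.univ.val
        = Multiset.map (fun a => (X - C a : ℂ[X]))
            (Multiset.map (fun i => (d i : ℂ)) Finset.univ.val) := by
      rw [Multiset.map_map]
      rfl
    rw [e]
    exact Polynomial.roots_multiset_prod_X_sub_C _
  rw [h2] at h1
  have h3 : Multiset.map (fun x : ℝ => (x : ℂ)) (Multiset.map d Finset.univ.val)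
      = Multiset.map (fun x : ℝ => (x : ℂ)) (Multiset.map hM.eigenvalues Finset.univ.val) := by
    rw [Multiset.map_map, Multiset.map_map]
    exact h1
  exact (Multiset.map_injective Complex.ofReal_injective h3).symm

theorem count_eig {m : ℕ} (M : Matrix (Fin m) (Fin m) ℂ) (hM : M.IsHermitian)
    (d : Fin m → ℝ) (h : M = Matrix.diagonal fun i => (d i : ℂ)) (p : ℝ → Prop)
    [DecidablePred p] :
    (Finset.univ.filter fun i => p (hM.eigenvalues i)).card
      = (Finset.univ.filter fun i => p (d i)).card := by
  have h1 := congrArg (Multiset.countP p) (eig_multiset M hM d h)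
  rw [Multiset.countP_map, Multiset.countP_map] at h1
  exact h1

/-- A real matrix with `M Mᵀ = Mᵀ M` gives a complex normal matrix. -/
theorem normal_of_real {m : ℕ} (M : Matrix (Fin m) (Fin m) ℝ) (h : M * Mᵀ = Mᵀ * M) :
    (M.map Complex.ofReal) * (M.map Complex.ofReal)ᴴ
      = (M.map Complex.ofReal)ᴴ * (M.map Complex.ofReal) := by
  have hc : (M.map Complex.ofReal)ᴴ = Mᵀ.map Complex.ofReal := by
    ext i j
    simp [Matrix.conjTranspose_apply]
  have e1 : ∀ P Q : Matrix (Fin m) (Fin m) ℝ, (P * Q).map Complex.ofReal
      = P.map Complex.ofReal * Q.map Complex.ofReal := by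
    intro P Q
    ext i j
    simp [Matrix.mul_apply]
  rw [hc, ← e1, ← e1, h]

end Pool.Agent.X297.ND
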